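import Mathlib.Analysis.InnerProductSpace.PiL2
import Mathlib.Topology.GDelta.Basic
import Pool.Agent.Work.MP_1bd46d_gt.Count

/-! Every chainable continuum that has a Kuratowski map and is not an arc has continuum many
mutually inequivalent planar embeddings. -/

namespace Pool.Agent.Results.MP_1bd46d_gt.Embeddings

open Set Topology

/-- For every `ε > 0` there is a finite open cover by sets of diameter `< ε` whose members meet
exactly when their indices differ by at most one. -/
def IsChainable (X : Type*) [MetricSpace X] : Prop :=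
  ∀ ε > 0, ∃ (n : ℕ) (U : Fin n → Set X), (∀ i, IsOpen (U i)) ∧ ⋃ i, U i = univ ∧
    (∀ i, Metric.diam (U i) < ε) ∧ ∀ i j, (U i ∩ U j).Nonempty ↔ |((i : ℕ) : ℤ) - ((j : ℕ) : ℤ)| ≤ 1

/-- A continuous surjection onto the unit interval whose fibres are maximal nowhere dense
subcontinua. -/
def IsKuratowskiMap {X : Type*} [TopologicalSpace X] (g : X → unitInterval) : Prop :=
  Continuous g ∧ Function.Surjective g ∧
    ∀ t, Maximal (fun K : Set X => IsCompact K ∧ IsConnected K ∧ IsNowhereDense K) (g ⁻¹' {t})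

theorem result (X : Type*) [MetricSpace X] [CompactSpace X] [ConnectedSpace X]
    (hch : IsChainable X) (g : X → unitInterval) (hg : IsKuratowskiMap g)
    (hna : IsEmpty (X ≃ₜ unitInterval)) :
    ∃ φ : ℝ → X → EuclideanSpace ℝ (Fin 2), (∀ r, IsEmbedding (φ r)) ∧
      ∀ r s, r ≠ s → ¬ ∃ h : EuclideanSpace ℝ (Fin 2) ≃ₜ EuclideanSpace ℝ (Fin 2),
        h '' range (φ r) = range (φ s) := by
  obtain ⟨hc, hs, hm⟩ := hg
  have D : Emb36.Data fun x => (g x : ℝ) := by
    refine ⟨by fun_prop, ?_, fun t => ?_, fun ε hε => ?_, fun η x y hxy => ?_, fun x => ?_⟩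
    · ext t
      constructor
      · rintro ⟨x, rfl⟩; exact (g x).2
      · intro ht; obtain ⟨x, hx⟩ := hs ⟨t, ht⟩; exact ⟨x, by simp [hx]⟩
    · rcases ((fun x => (g x : ℝ)) ⁻¹' {t}).eq_empty_or_nonempty with h | ⟨x, hx⟩
      · rw [h]; exact isPreconnected_empty
      · have : (fun x => (g x : ℝ)) ⁻¹' {t} = g ⁻¹' {g x} := by
          ext y
          simp only [mem_preimage, mem_singleton_iff] at hx ⊢
          rw [← hx, Subtype.ext_iff]
        rw [this]; exact (hm (g x)).prop.2.1.isPreconnected
    · obtain ⟨n, U, a, b, c, d⟩ := hch (ε / 2) (half_pos hε)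
      obtain ⟨ρ, hρ⟩ := Emb36.fine_of_chain U a b c d
      exact ⟨ρ, hρ.mono (by linarith)⟩
    · obtain ⟨a1, a2, a3⟩ := (hm (g x)).prop
      obtain ⟨b1, b2, b3⟩ := (hm (g (η x))).prop
      have c3 : IsNowhereDense (η '' (g ⁻¹' {g x})) := by
        rw [IsNowhereDense, ← η.image_closure, ← η.image_interior, a3, image_empty]
      have c4 : IsNowhereDense (g ⁻¹' {g (η x)} ∪ η '' (g ⁻¹' {g x})) := by
        have k1 := b1.isClosed
        have k2 := (a1.image η.continuous).isClosed
        rw [(k1.union k2).isNowhereDense_iff,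
          interior_union_isClosed_of_interior_empty k1 (k2.isNowhereDense_iff.1 c3)]
        exact k1.isNowhereDense_iff.1 b3
      have := (hm (g (η x))).2 (y := g ⁻¹' {g (η x)} ∪ η '' (g ⁻¹' {g x}))
        ⟨b1.union (a1.image η.continuous), b2.union ⟨η x, rfl, mem_image_of_mem _ rfl⟩
          (a2.image _ η.continuous.continuousOn), c4⟩ subset_union_left
      have e : g (η y) = g (η x) := this (Or.inr (mem_image_of_mem _ (Subtype.ext hxy.symm)))
      rw [e]
    · by_contra h
      rw [not_or] at h
      have h3 : interior (closure (g ⁻¹' {g x})) = ∅ := (hm (g x)).prop.2.2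
      have h4 : (closure {y | (g y : ℝ) < g x} ∪ closure {y | (g x : ℝ) < g y})ᶜ ⊆
          closure (g ⁻¹' {g x}) := by
        intro y hy
        rw [mem_compl_iff, mem_union, not_or] at hy
        exact subset_closure (Subtype.ext (le_antisymm (not_lt.1 fun e => hy.2 (subset_closure e))
          (not_lt.1 fun e => hy.1 (subset_closure e))))
      have h5 := interior_maximal h4 (isClosed_closure.union isClosed_closure).isOpen_compl
        (show x ∈ _ from not_or.2 h)
      rw [h3] at h5
      exact h5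
  have hni : ¬ Function.Injective fun x => (g x : ℝ) := fun h =>
    hna.false (Continuous.homeoOfEquivCompactToT2
      (f := Equiv.ofBijective g ⟨fun x y e => h (congrArg Subtype.val e), hs⟩) hc)
  obtain ⟨ψ, h1, h2⟩ := Emb36.many (Emb36.rigidFam D hni)
  let e : ℂ ≃ₜ EuclideanSpace ℝ (Fin 2) := Complex.orthonormalBasisOneI.repr.toHomeomorph
  refine ⟨fun r => e ∘ ψ r, fun r => e.isEmbedding.comp
    ((ψ r).continuous.isClosedEmbedding (h1 r)).isEmbedding, fun r s hrs ⟨h, hh⟩ => ?_⟩
  refine h2 r s hrs ⟨e.trans (h.trans e.symm), ?_⟩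
  rw [range_comp, range_comp] at hh
  have : ⇑(e.trans (h.trans e.symm)) = e.symm ∘ h ∘ e := rfl
  rw [this, image_comp, image_comp, hh, ← image_comp]
  simp

end Pool.Agent.Results.MP_1bd46d_gt.Embeddings
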